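import Mathlib
import Pool.Agent.P.MP_54b694_lc.Defs
import Pool.Agent.P.MP_54b694_lc.Main

namespace Pool.Agent.Results.MP_54b694_lc.Consistent

open Pool.Agent.P.MP_54b694_lc

/-- There is a model of ZFC in which `cov(M)` is singular and some `cov(M)`-Luzin set `X` is the
union of a family `H` of fewer than `cov(M)` meager sets. -/
theorem result : ∃ (M : Type 1) (E : M → M → Prop), IsZFC E ∧
    ∃ R L K : M, IsRealLine E R L ∧ IsCov E R L K ∧ IsSingular E K ∧
      ∃ X H : M, IsLuzin E R L K X ∧ CardLT E H K ∧ (∀ A, E A H → Meager E R L A) ∧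
        ∀ x, E x X ↔ ∃ A, E A H ∧ E x A :=
  exists_model

end Pool.Agent.Results.MP_54b694_lc.Consistent
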